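import Pool.Agent.T3h91.EC.Ineq
import Pool.Agent.R852.LK.Fin

set_option autoImplicit false

/-! Integers which are squares modulo many primes: classes modulo squares. -/

open Finset Filter Topology

namespace Pool.Agent.T3h91.EC

open Pool.Agent.R852.LK Pool.Agent.R852.BC Pool.Agent.R920.CH

/-- the odd primes below `n` at which the symbol is not one -/
def bad (n : ℕ) (f : ℤ) : Finset ℕ := (PR n).filter fun p => ps f p ≠ 1

/-- the odd primes below `n` at which `f` is a non-residue -/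
def inert (n : ℕ) (f : ℤ) : Finset ℕ := (PR n).filter fun p => ¬ (p : ℤ) ∣ f ∧ ps f p ≠ 1

lemma dvd_of_bad (n : ℕ) (f s D : ℤ) (hD : D = f * s ^ 2)
    (hsq : ∀ p ∈ PR n, ∃ t : ℤ, (p : ℤ) ∣ D - t ^ 2)
    (p : ℕ) (hp : p ∈ PR n) (hpf : ¬ (p : ℤ) ∣ f) (hps : ps f p ≠ 1) : (p : ℤ) ∣ s := by
  by_contra hs
  apply hps
  obtain ⟨hp1, hp2, hp3⟩ := mem_PR.mp hp
  apply ps_one_of f p hp2 hp3 hpf
  obtain ⟨t, ht⟩ := hsq p hp
  rw [hD] at ht
  have hpi := Nat.prime_iff_prime_int.1 hp2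
  obtain ⟨u, v, huv⟩ := (Irreducible.coprime_iff_not_dvd hpi.irreducible).mpr hs
  refine ⟨v * t, ?_⟩
  have e : f - (v * t) ^ 2 = v ^ 2 * (f * s ^ 2 - t ^ 2) + (p : ℤ) * (f * u * (2 - u * p)) := by
    have e1 : v * s = 1 - u * p := by linarith
    have e2 : (v * s) ^ 2 = (1 - u * p) ^ 2 := by rw [e1]
    linear_combination (-f) * e2
  rw [e]
  exact dvd_add (Dvd.dvd.mul_left ht _) (dvd_mul_right _ _)

lemma bad_card (n : ℕ) (f s D : ℤ) (X : ℝ) (hD0 : D ≠ 0) (hD : D = f * s ^ 2)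
    (hsq : ∀ p ∈ PR n, ∃ t : ℤ, (p : ℤ) ∣ D - t ^ 2) (hX : |(D : ℝ)| ≤ X) :
    ((bad n f).card : ℝ) ≤ 2 * Real.log X := by
  have h1 : (∏ p ∈ bad n f, p) ∣ (f * s).natAbs := by
    apply Finset.prod_primes_dvd
    · intro p hp
      exact (mem_PR.mp (mem_filter.mp hp).1).2.1.prime
    · intro p hp
      rw [bad, mem_filter] at hp
      apply Int.natCast_dvd.mp
      by_cases h : (p : ℤ) ∣ f
      · exact Dvd.dvd.mul_right h _
      · exact Dvd.dvd.mul_left (dvd_of_bad n f s D hD hsq p hp.1 h hp.2) _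
  have hfs : f * s ≠ 0 := by
    intro h
    apply hD0
    rw [hD, sq, ← mul_assoc, h, zero_mul]
  have h2 : 2 ^ (bad n f).card ≤ (f * s).natAbs := by
    calc 2 ^ (bad n f).card = ∏ _p ∈ bad n f, 2 := by rw [prod_const]
      _ ≤ ∏ p ∈ bad n f, p := prod_le_prod' fun p hp =>
          (mem_PR.mp (mem_filter.mp hp).1).2.1.two_le
      _ ≤ (f * s).natAbs := Nat.le_of_dvd (Int.natAbs_pos.mpr hfs) h1
  have h3 : (f * s).natAbs ≤ D.natAbs :=
    Nat.le_of_dvd (Int.natAbs_pos.mpr hD0) (Int.natAbs_dvd_natAbs.mpr ⟨s, by rw [hD]; ring⟩)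
  have h4 : ((2 : ℝ) ^ (bad n f).card) ≤ X := by
    have h5 : ((2 ^ (bad n f).card : ℕ) : ℝ) ≤ (D.natAbs : ℝ) := by exact_mod_cast h2.trans h3
    push_cast at h5
    rw [Nat.cast_natAbs, Int.cast_abs] at h5
    exact h5.trans hX
  have h5 := Real.log_le_log (by positivity) h4
  rw [Real.log_pow] at h5
  have hl2 : (1 / 2 : ℝ) ≤ Real.log 2 := by linarith [Real.log_two_gt_d9]
  have h6 : ((bad n f).card : ℝ) * (1 / 2) ≤ Real.log X :=
    (mul_le_mul_of_nonneg_left hl2 (Nat.cast_nonneg _)).trans h5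
  linarith

lemma sum_ps (n : ℕ) (f : ℤ) :
    ((PR n).card : ℝ) - 2 * (bad n f).card ≤ ∑ p ∈ PR n, (ps f p : ℝ) := by
  have hlow : ∀ p ∈ PR n, (1 : ℝ) - (if ps f p ≠ 1 then 2 else 0) ≤ (ps f p : ℝ) := by
    intro p hp
    split_ifs with h
    · have := (abs_le.mp (ps_abs f p)).1
      have h' : ((-1 : ℤ) : ℝ) ≤ (ps f p : ℝ) := by exact_mod_cast this
      push_cast at h'
      linarith
    · push Not at h
      rw [h]; norm_num
  have hs := sum_le_sum hlow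
  rw [sum_sub_distrib, sum_const, nsmul_eq_mul, mul_one, ← sum_filter, sum_const,
    nsmul_eq_mul] at hs
  have hDc : (((PR n).filter fun p : ℕ => ps f p ≠ 1).card : ℝ) = (bad n f).card := rfl
  rw [hDc] at hs
  linarith

/-- The integers under consideration, with the squarefree part `κ` and the square part `σ`. -/
def Good (n : ℕ) (X : ℝ) (κ σ : ℤ → ℤ) (D : ℤ) : Prop :=
  |(D : ℝ)| ≤ X ∧ ¬ IsSquare D ∧ Squarefree (κ D) ∧ 0 < σ D ∧ D = κ D * σ D ^ 2 ∧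
    ∀ p ∈ PR n, ∃ t : ℤ, (p : ℤ) ∣ D - t ^ 2

lemma Good.ne_zero {n : ℕ} {X : ℝ} {κ σ : ℤ → ℤ} {D : ℤ} (h : Good n X κ σ D) : D ≠ 0 := by
  rintro rfl
  exact h.2.1 ⟨0, by ring⟩

lemma few_classes (B n : ℕ) (δ η X Y : ℝ) (hn : 1 ≤ n) (hY : 1 ≤ Y)
    (hK : (n : ℝ) ^ (1 - η) ≤ ((PR n).card : ℝ)) (hXK : 8 * Real.log X ≤ ((PR n).card : ℝ))
    (hB : (4 * B : ℝ) ≤ (n : ℝ) ^ δ)
    (hYB : 16 * Y * (1 + Real.log (4 * Y ^ 2)) ≤ (n : ℝ) ^ ((1 - η - δ) * B))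
    (κ σ : ℤ → ℤ) (T : Finset ℤ) (hT : ∀ D ∈ T, Good n X κ σ D)
    (hTY : ∀ D ∈ T, |(κ D : ℝ)| ≤ Y) :
    ((T.image κ).card : ℝ) ≤ 4 * (n : ℝ) ^ ((δ + η) * B) := by
  classical
  have hl0 : 0 ≤ Real.log (4 * Y ^ 2) := Real.log_nonneg (by nlinarith)
  apply few B n δ η hn (PR n) (fun p hp => (mem_PR.mp hp).2.1) (fun p hp => (mem_PR.mp hp).1.le)
    hK hB (T.image κ) (8 * Y * (1 + Real.log (4 * Y ^ 2))) (by positivity) (by linarith)
  · intro f hf g hg hfg M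
    obtain ⟨D, hD, rfl⟩ := Finset.mem_image.mp hf
    obtain ⟨E, hE, rfl⟩ := Finset.mem_image.mp hg
    apply pv_pair Y hY _ _ (hT D hD).2.2.1.ne_zero (hT E hE).2.2.1.ne_zero (hTY D hD) (hTY E hE)
    intro hs
    exact hfg (sq_prod _ _ (hT D hD).2.2.1 (hT E hE).2.2.1 hs)
  · intro f hf
    obtain ⟨D, hD, rfl⟩ := Finset.mem_image.mp hf
    obtain ⟨h1, h2, h3, h4, h5, h6⟩ := hT D hD
    have hb := bad_card n (κ D) (σ D) D X (hT D hD).ne_zero h5 h6 h1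
    have hs := sum_ps n (κ D)
    linarith

/-- counting -/
lemma tot (X Z N : ℝ) (hZ : 0 < Z) (T : Finset ℤ) (κ σ : ℤ → ℤ)
    (hT : ∀ D ∈ T, |(D : ℝ)| ≤ X ∧ 0 < σ D ∧ D = κ D * σ D ^ 2 ∧ κ D ≠ 0 ∧ Z ≤ |(κ D : ℝ)|)
    (hN : ((T.image κ).card : ℝ) ≤ N) : (T.card : ℝ) ≤ N * (√X / √Z) := by
  classical
  have hsum : (T.card : ℝ) = ∑ f ∈ T.image κ, ((T.filter fun D => κ D = f).card : ℝ) := by
    have := Finset.card_eq_sum_card_image κ T
    exact_mod_cast this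
  have hfib : ∀ f ∈ T.image κ, ((T.filter fun D => κ D = f).card : ℝ) ≤ √X / √Z := by
    intro f hf
    obtain ⟨D, hD, rfl⟩ := Finset.mem_image.mp hf
    have hb := fib X (κ D) (hT D hD).2.2.2.1 (T.filter fun E => κ E = κ D) σ (by
      intro E hE
      rw [Finset.mem_filter] at hE
      refine ⟨(hT E hE.1).1, (hT E hE.1).2.1, ?_⟩
      rw [← hE.2]
      exact (hT E hE.1).2.2.1)
    refine hb.trans ?_
    apply div_le_div_of_nonneg_left (Real.sqrt_nonneg _) (by positivity)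
    exact Real.sqrt_le_sqrt (hT D hD).2.2.2.2
  rw [hsum]
  calc ∑ f ∈ T.image κ, ((T.filter fun D => κ D = f).card : ℝ)
      ≤ ∑ _f ∈ T.image κ, √X / √Z := sum_le_sum hfib
    _ = ((T.image κ).card : ℝ) * (√X / √Z) := by rw [sum_const, nsmul_eq_mul]
    _ ≤ _ := mul_le_mul_of_nonneg_right hN (by positivity)

lemma fibb (X : ℝ) (f : ℤ) (hf : f ≠ 0) (b : ℕ) (hb : 0 < b) (S : Finset ℤ) (σ : ℤ → ℤ)
    (hS : ∀ D ∈ S, |(D : ℝ)| ≤ X ∧ 0 < σ D ∧ D = f * σ D ^ 2 ∧ (b : ℤ) ∣ σ D) :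
    (S.card : ℝ) ≤ √X / b := by
  have hb0 : (0 : ℝ) < b := by exact_mod_cast hb
  have hbz : (0 : ℤ) < b := by exact_mod_cast hb
  have hdiv : ∀ D ∈ S, ((b : ℤ)) * (((σ D / b).toNat : ℕ) : ℤ) = σ D := by
    intro D hD
    obtain ⟨h1, h2, h3, h4⟩ := hS D hD
    rw [Int.toNat_of_nonneg (Int.ediv_nonneg h2.le hbz.le)]
    exact Int.mul_ediv_cancel' h4
  have hmap : ∀ D ∈ S, (σ D / b).toNat ∈ Icc 1 ⌊√X / b⌋₊ := by
    intro D hD
    obtain ⟨h1, h2, h3, h4⟩ := hS D hD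
    have h5 := hdiv D hD
    set k : ℕ := (σ D / b).toNat with hk
    rw [Finset.mem_Icc]
    constructor
    · rcases Nat.eq_zero_or_pos k with h | h
      · rw [h] at h5; simp at h5; omega
      · exact h
    · apply Nat.le_floor
      rw [le_div_iff₀ hb0]
      apply Real.le_sqrt_of_sq_le
      have h6 : ((k : ℝ) * b) = (σ D : ℝ) := by
        have : ((b : ℤ) : ℝ) * ((k : ℤ) : ℝ) = (σ D : ℝ) := by exact_mod_cast h5
        push_cast at this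
        linarith
      rw [h6]
      have h7 : |(D : ℝ)| = |(f : ℝ)| * (σ D : ℝ) ^ 2 := by
        conv_lhs => rw [h3]
        push_cast
        rw [abs_mul, abs_of_nonneg (sq_nonneg (σ D : ℝ))]
      have h8 : (1 : ℝ) ≤ |(f : ℝ)| := by
        have : (1 : ℤ) ≤ |f| := Int.one_le_abs hf
        have h' : ((1 : ℤ) : ℝ) ≤ ((|f| : ℤ) : ℝ) := by exact_mod_cast this
        rwa [Int.cast_abs, Int.cast_one] at h'
      nlinarith [sq_nonneg (σ D : ℝ)]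
  have hinj : Set.InjOn (fun D => (σ D / b).toNat) (S : Set ℤ) := by
    intro D hD E hE hDE
    have h1 := hdiv D hD
    have h2 := hdiv E hE
    have h3 : σ D = σ E := by
      have : (σ D / b).toNat = (σ E / b).toNat := hDE
      rw [← h1, ← h2, this]
    rw [(hS D hD).2.2.1, (hS E hE).2.2.1, h3]
  have h1 := Finset.card_le_card_of_injOn _ hmap hinj
  rw [Nat.card_Icc, Nat.add_sub_cancel] at h1
  calc (S.card : ℝ) ≤ (⌊√X / b⌋₊ : ℝ) := by exact_mod_cast h1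
    _ ≤ _ := Nat.floor_le (by positivity)

end Pool.Agent.T3h91.EC
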