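import Pool.Agent.T3h91.EC.PVs
import Pool.Agent.R852.LK.Core

set_option autoImplicit false

/-! Few integers with many prime residues, with a bound in an exponential range. -/

open Finset Filter Topology

namespace Pool.Agent.T3h91.EC

open Pool.Agent.R852.LK

lemma ineq2 (B y : ℕ) (Q : Finset ℕ) (hQ : ∀ p ∈ Q, p.Prime) (hQy : ∀ p ∈ Q, p ≤ y)
    (F : Finset ℤ) (V : ℝ) (hV0 : 0 ≤ V)
    (hV : ∀ f ∈ F, ∀ g ∈ F, f ≠ g → ∀ M : ℕ, ((∑ m ∈ range M, ps (f * g) m : ℤ) : ℝ) ≤ V)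
    (hF : ∀ f ∈ F, (Q.card : ℝ) / 2 ≤ ∑ p ∈ Q, (ps f p : ℝ)) :
    ((F.card : ℝ) * ((Q.card : ℝ) / 2) ^ B) ^ 2 ≤
      (Q.card : ℝ) ^ B * ((B : ℝ) ^ B *
        ((F.card : ℝ) * ((y : ℝ) ^ B + 1) + (F.card : ℝ) ^ 2 * V)) := by
  classical
  set G : ℕ → ℝ := fun m => ∑ f ∈ F, (ps f m : ℝ) with hG
  set T := Fintype.piFinset (fun _ : Fin B => Q) with hT
  have hTc : (T.card : ℝ) = (Q.card : ℝ) ^ B := by
    rw [hT, Fintype.card_piFinset]; simp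
  have h1 : (F.card : ℝ) * ((Q.card : ℝ) / 2) ^ B ≤ ∑ t ∈ T, G (∏ i, t i) := by
    have e1 : ∑ t ∈ T, G (∏ i, t i) = ∑ f ∈ F, (∑ p ∈ Q, (ps f p : ℝ)) ^ B := by
      simp only [hG]
      rw [sum_comm]
      refine sum_congr rfl fun f _ => ?_
      have h := Finset.prod_univ_sum (fun _ : Fin B => Q)
        (fun (_ : Fin B) (p : ℕ) => (ps f p : ℝ))
      rw [prod_const, card_univ, Fintype.card_fin] at h
      rw [h]
      refine sum_congr rfl fun t _ => ?_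
      rw [ps_prod]; push_cast; rfl
    rw [e1]
    calc (F.card : ℝ) * ((Q.card : ℝ) / 2) ^ B = ∑ _f ∈ F, ((Q.card : ℝ) / 2) ^ B := by
          rw [sum_const, nsmul_eq_mul]
      _ ≤ _ := sum_le_sum fun f hf => pow_le_pow_left₀ (by positivity) (hF f hf) _
  have h2 : (∑ t ∈ T, G (∏ i, t i)) ^ 2 ≤ (T.card : ℝ) * ∑ t ∈ T, (G (∏ i, t i)) ^ 2 :=
    sq_sum_le_card_mul_sum_sq
  have h3 := second B y Q hQ hQy (fun m => G m ^ 2) (fun m => sq_nonneg _)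
  have h4 : ∑ m ∈ range (y ^ B + 1), G m ^ 2 ≤
      (F.card : ℝ) * ((y : ℝ) ^ B + 1) + (F.card : ℝ) ^ 2 * V := by
    have e : ∀ m, G m ^ 2 = ∑ f ∈ F, ∑ g ∈ F, (ps (f * g) m : ℝ) := by
      intro m
      simp only [hG]
      rw [sq, sum_mul_sum]
      refine sum_congr rfl fun f _ => sum_congr rfl fun g _ => ?_
      rw [ps_left]; push_cast; rfl
    simp_rw [e]
    rw [sum_comm]
    have h5 : ∀ f ∈ F, ∑ m ∈ range (y ^ B + 1), ∑ g ∈ F, (ps (f * g) m : ℝ) ≤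
        ((y : ℝ) ^ B + 1) + (F.card : ℝ) * V := by
      intro f hf
      rw [sum_comm]
      have h6 : ∀ g ∈ F, ∑ m ∈ range (y ^ B + 1), (ps (f * g) m : ℝ) ≤
          (if g = f then ((y : ℝ) ^ B + 1) else 0) + V := by
        intro g hg
        split_ifs with hfg
        · have h7 : ∑ m ∈ range (y ^ B + 1), (ps (f * g) m : ℝ) ≤
              ∑ _m ∈ range (y ^ B + 1), (1 : ℝ) :=
            sum_le_sum fun m _ => by
              have := (abs_le.mp (ps_abs (f * g) m)).2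
              exact_mod_cast this
          rw [sum_const, card_range, nsmul_eq_mul, mul_one] at h7
          push_cast at h7
          linarith
        · rw [zero_add]
          have hb := hV f hf g hg (Ne.symm hfg) (y ^ B + 1)
          push_cast at hb
          exact hb
      refine (sum_le_sum h6).trans ?_
      rw [sum_add_distrib, sum_ite_eq' , if_pos hf, sum_const, nsmul_eq_mul]
    refine (sum_le_sum h5).trans ?_
    rw [sum_const, nsmul_eq_mul]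
    apply le_of_eq; ring
  have h0 : 0 ≤ (F.card : ℝ) * ((Q.card : ℝ) / 2) ^ B := by positivity
  calc ((F.card : ℝ) * ((Q.card : ℝ) / 2) ^ B) ^ 2 ≤ (∑ t ∈ T, G (∏ i, t i)) ^ 2 :=
        pow_le_pow_left₀ h0 h1 2
    _ ≤ (T.card : ℝ) * ∑ t ∈ T, (G (∏ i, t i)) ^ 2 := h2
    _ ≤ (T.card : ℝ) * ((B : ℝ) ^ B * ∑ m ∈ range (y ^ B + 1), G m ^ 2) :=
        mul_le_mul_of_nonneg_left h3 (Nat.cast_nonneg _)
    _ ≤ (T.card : ℝ) * ((B : ℝ) ^ B *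
        ((F.card : ℝ) * ((y : ℝ) ^ B + 1) + (F.card : ℝ) ^ 2 * V)) := by
        gcongr
    _ = _ := by rw [hTc]

/-- **Few square classes**, general form. -/
lemma few (B y : ℕ) (δ η : ℝ) (hy : 1 ≤ y) (Q : Finset ℕ) (hQ : ∀ p ∈ Q, p.Prime)
    (hQy : ∀ p ∈ Q, p ≤ y) (hK : (y : ℝ) ^ (1 - η) ≤ (Q.card : ℝ))
    (hB : (4 * B : ℝ) ≤ (y : ℝ) ^ δ) (F : Finset ℤ) (V : ℝ) (hV0 : 0 ≤ V)
    (h2V : 2 * V ≤ (y : ℝ) ^ ((1 - η - δ) * B))
    (hV : ∀ f ∈ F, ∀ g ∈ F, f ≠ g → ∀ M : ℕ, ((∑ m ∈ range M, ps (f * g) m : ℤ) : ℝ) ≤ V)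
    (hF : ∀ f ∈ F, (Q.card : ℝ) / 2 ≤ ∑ p ∈ Q, (ps f p : ℝ)) :
    (F.card : ℝ) ≤ 4 * (y : ℝ) ^ ((δ + η) * B) := by
  have hmain := ineq2 B y Q hQ hQy F V hV0 hV hF
  have hy0 : (0 : ℝ) < y := by exact_mod_cast hy
  have hyone : (1 : ℝ) ≤ y := by exact_mod_cast hy
  set K : ℝ := (Q.card : ℝ) with hKdef
  set R : ℝ := (F.card : ℝ) with hR
  set c : ℝ := (4 * B : ℝ) ^ B with hc
  have hK0 : 0 < K := lt_of_lt_of_le (Real.rpow_pos_of_pos hy0 _) hK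
  by_cases hR0 : R = 0
  · rw [hR0]; positivity
  have hRpos : 0 < R := lt_of_le_of_ne (Nat.cast_nonneg _) (Ne.symm hR0)
  have hKB : 0 < K ^ B := by positivity
  have hc0 : 0 ≤ c := by positivity
  have hcle : c ≤ (y : ℝ) ^ (δ * B) := by
    rw [hc, Real.rpow_mul hy0.le, Real.rpow_natCast]
    exact pow_le_pow_left₀ (by positivity) hB _
  have hKBl : (y : ℝ) ^ ((1 - η) * B) ≤ K ^ B := by
    rw [Real.rpow_mul hy0.le, Real.rpow_natCast]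
    exact pow_le_pow_left₀ (by positivity) hK _
  have s1 : R ^ 2 * K ^ B ≤ c * (R * ((y : ℝ) ^ B + 1) + R ^ 2 * V) := by
    have h1 : (R * (K / 2) ^ B) ^ 2 = K ^ B * (R ^ 2 * K ^ B / 4 ^ B) := by
      rw [div_pow, show (4 : ℝ) = 2 * 2 by norm_num, mul_pow 2 2 B]; field_simp
    rw [h1] at hmain
    have h2 := le_of_mul_le_mul_left hmain hKB
    rw [div_le_iff₀ (by positivity)] at h2
    calc R ^ 2 * K ^ B ≤ _ := h2
      _ = _ := by rw [hc, mul_pow]; ring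
  have s3 : c * V ≤ K ^ B / 2 := by
    have h1 : c * (2 * V) ≤ (y : ℝ) ^ (δ * B) * (y : ℝ) ^ ((1 - η - δ) * B) :=
      mul_le_mul hcle h2V (by positivity) (by positivity)
    rw [← Real.rpow_add hy0] at h1
    have e : δ * B + (1 - η - δ) * B = (1 - η) * B := by ring
    rw [e] at h1
    linarith
  have s4 : (y : ℝ) ^ B ≤ K ^ B * (y : ℝ) ^ (η * B) := by
    have h2 : (y : ℝ) ^ B = (y : ℝ) ^ ((1 - η) * B) * (y : ℝ) ^ (η * B) := by
      rw [← Real.rpow_add hy0, ← Real.rpow_natCast]; congr 1; ring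
    rw [h2]
    exact mul_le_mul_of_nonneg_right hKBl (by positivity)
  have s5 : (y : ℝ) ^ B + 1 ≤ 2 * (y : ℝ) ^ B := by
    have : 1 ≤ (y : ℝ) ^ B := one_le_pow₀ hyone
    linarith
  have s6 : R * K ^ B ≤ 4 * c * (y : ℝ) ^ B := by
    have h1 : R ^ 2 * K ^ B ≤ c * (R * (2 * (y : ℝ) ^ B)) + R ^ 2 * (K ^ B / 2) := by
      have h2 : c * (R * ((y : ℝ) ^ B + 1)) ≤ c * (R * (2 * (y : ℝ) ^ B)) := by gcongr
      have h3 : c * (R ^ 2 * V) ≤ R ^ 2 * (K ^ B / 2) := by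
        have := mul_le_mul_of_nonneg_left s3 (sq_nonneg R)
        calc c * (R ^ 2 * V) = R ^ 2 * (c * V) := by ring
          _ ≤ _ := this
      rw [mul_add] at s1
      linarith
    have h4 : R * (R * K ^ B) ≤ R * (4 * c * (y : ℝ) ^ B) := by nlinarith
    exact le_of_mul_le_mul_left h4 hRpos
  have s7 : R * K ^ B ≤ (4 * (y : ℝ) ^ ((δ + η) * B)) * K ^ B := by
    calc R * K ^ B ≤ 4 * c * (y : ℝ) ^ B := s6
      _ ≤ 4 * (y : ℝ) ^ (δ * B) * (K ^ B * (y : ℝ) ^ (η * B)) := by gcongr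
      _ = (4 * ((y : ℝ) ^ (δ * B) * (y : ℝ) ^ (η * B))) * K ^ B := by ring
      _ = _ := by rw [← Real.rpow_add hy0]; congr 3; ring
  exact le_of_mul_le_mul_right s7 hKB

/-- the bound of Polya and Vinogradov for products -/
lemma pv_pair (Y : ℝ) (hY : 1 ≤ Y) (f g : ℤ) (hf0 : f ≠ 0) (hg0 : g ≠ 0)
    (hf : |(f : ℝ)| ≤ Y) (hg : |(g : ℝ)| ≤ Y) (hfg : ¬ IsSquare (f * g)) (M : ℕ) :
    ((∑ m ∈ range M, ps (f * g) m : ℤ) : ℝ) ≤ 8 * Y * (1 + Real.log (4 * Y ^ 2)) := by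
  have h := (le_abs_self _).trans (pv_bound (f * g) (mul_ne_zero hf0 hg0) hfg M)
  have h1 : |((f * g : ℤ) : ℝ)| ≤ Y ^ 2 := by
    push_cast
    rw [abs_mul, sq]
    exact mul_le_mul hf hg (abs_nonneg _) (by linarith)
  have h0 : 1 ≤ |((f * g : ℤ) : ℝ)| := by
    have : (1 : ℤ) ≤ |f * g| := Int.one_le_abs (mul_ne_zero hf0 hg0)
    have h' : ((1 : ℤ) : ℝ) ≤ ((|f * g| : ℤ) : ℝ) := by exact_mod_cast this
    rw [Int.cast_abs, Int.cast_one] at h'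
    exact h'
  have h2 : √(4 * |((f * g : ℤ) : ℝ)|) ≤ 2 * Y := by
    rw [Real.sqrt_le_left (by linarith)]
    nlinarith
  have h3 : Real.log (4 * |((f * g : ℤ) : ℝ)|) ≤ Real.log (4 * Y ^ 2) :=
    Real.log_le_log (by linarith) (by linarith)
  have h4 : 0 ≤ Real.log (4 * |((f * g : ℤ) : ℝ)|) := Real.log_nonneg (by linarith)
  calc ((∑ m ∈ range M, ps (f * g) m : ℤ) : ℝ) ≤ _ := h
    _ ≤ 4 * (2 * Y) * (1 + Real.log (4 * Y ^ 2)) := by gcongr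
    _ = _ := by ring

end Pool.Agent.T3h91.EC
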