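import Pool.Agent.T3h91.EC.Parts

set_option autoImplicit false

/-! Large squarefree parts. -/

open Finset Filter Topology

namespace Pool.Agent.T3h91.EC

open Pool.Agent.R852.LK Pool.Agent.R852.BC Pool.Agent.R920.CH

/-- one class of sizes -/
lemma one_class (ε : ℝ) (hε : 0 < ε) (hε1 : ε ≤ 1 / 6) : ∃ A : ℝ, 0 ≤ A ∧ ∀ᶠ n : ℕ in atTop,
    ∀ X : ℝ, Real.log X ≤ (n : ℝ) ^ (1 / 3 - ε : ℝ) → ∀ κ σ : ℤ → ℤ,
    ∀ i : ℕ, (i : ℝ) ≤ (n : ℝ) ^ (1 / 3 - ε : ℝ) → ∀ T : Finset ℤ,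
    (∀ D ∈ T, Good n X κ σ D ∧ (n : ℝ) ^ A < |(κ D : ℝ)| ∧
      Real.exp i ≤ |(κ D : ℝ)| ∧ |(κ D : ℝ)| < Real.exp (i + 1)) →
    (T.card : ℝ) ≤ √X / (n : ℝ) ^ 6 := by
  classical
  set η : ℝ := ε / 4 with hη
  set δ : ℝ := 1 / 3 - ε / 2 with hδ
  set a : ℝ := 1 - η - δ with ha
  have ha' : a = 2 / 3 + ε / 4 := by rw [ha, hη, hδ]; ring
  have hδη : δ + η = 1 / 3 - ε / 4 := by rw [hη, hδ]; ring
  have ha0 : 0 < a := by rw [ha']; linarith
  have hη0 : 0 < η := by rw [hη]; linarith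
  have hδ0 : 0 < δ := by rw [hδ]; linarith
  set c₁ : ℝ := 1 / 2 - (δ + η) / a with hc₁
  have hc₁0 : 0 < c₁ := by
    rw [hc₁, sub_pos, div_lt_iff₀ ha0, hδη, ha']
    linarith
  have hκ0 : 0 ≤ (δ + η) / a := by
    apply div_nonneg _ ha0.le
    linarith
  have hκ : (δ + η) / a ≤ 1 / 2 := by rw [hc₁] at hc₁0; linarith
  refine ⟨12 / c₁, by positivity, ?_⟩
  set θ : ℝ := 1 / 3 - ε with hθ
  have e1 : ∀ᶠ n : ℕ in atTop, (8 : ℝ) ≤ (n : ℝ) ^ (1 - η - θ) :=
    tendsto_natCast_atTop_atTop.eventually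
      ((tendsto_rpow_atTop (by rw [hη, hθ]; linarith : (0 : ℝ) < 1 - η - θ)).eventually_ge_atTop _)
  have e2 : ∀ᶠ n : ℕ in atTop, (22 : ℝ) ≤ (n : ℝ) ^ (ε / 2) :=
    tendsto_natCast_atTop_atTop.eventually
      ((tendsto_rpow_atTop (by linarith : (0 : ℝ) < ε / 2)).eventually_ge_atTop _)
  filter_upwards [card_PR η hη0 (by rw [hη]; linarith), e1, e2, eventually_ge_atTop 305]
    with n hK h1 h2 hn X hX κ σ i hi T hT
  have hn0 : (0 : ℝ) < n := by positivity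
  have hn305 : (305 : ℝ) ≤ n := by exact_mod_cast hn
  have hn1 : (1 : ℝ) ≤ n := by linarith
  rcases T.eq_empty_or_nonempty with rfl | ⟨D₀, hD₀⟩
  · rw [card_empty, Nat.cast_zero]; positivity
  have hnθ0 : 0 ≤ (n : ℝ) ^ θ := by positivity
  have hnθ : (n : ℝ) ^ θ ≤ n := by
    calc (n : ℝ) ^ θ ≤ (n : ℝ) ^ (1 : ℝ) :=
          Real.rpow_le_rpow_of_exponent_le hn1 (by rw [hθ]; linarith)
      _ = n := Real.rpow_one _
  have hin : (i : ℝ) ≤ n := hi.trans hnθ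
  have hlogn1 : 1 ≤ Real.log n := by
    rw [Real.le_log_iff_exp_le hn0]
    have := Real.exp_one_lt_d9
    linarith
  have hi0 : (0 : ℝ) ≤ i := Nat.cast_nonneg _
  -- the lower bound for `i`
  have hiA : 12 / c₁ * Real.log n < i + 1 := by
    obtain ⟨-, g1, g2, g3⟩ := hT D₀ hD₀
    have h5 := g1.trans g3
    have h6 := Real.log_lt_log (Real.rpow_pos_of_pos hn0 _) h5
    rwa [Real.log_exp, Real.log_rpow hn0] at h6
  have hc₁i : 12 * Real.log n - 1 ≤ c₁ * i := by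
    have h5 := mul_lt_mul_of_pos_left hiA hc₁0
    have h6 : c₁ * (12 / c₁ * Real.log n) = 12 * Real.log n := by field_simp
    have h7 : c₁ ≤ 1 / 2 := by rw [hc₁]; linarith
    rw [h6] at h5
    linarith
  have hXK : 8 * Real.log X ≤ ((PR n).card : ℝ) := by
    have h5 : (n : ℝ) ^ (1 - η) = (n : ℝ) ^ (1 - η - θ) * (n : ℝ) ^ θ := by
      rw [← Real.rpow_add hn0]; congr 1; ring
    rw [h5] at hK
    nlinarith
  set LW : ℝ := 2 * Real.log n + i with hLW
  have hLW0 : 0 ≤ LW := by rw [hLW]; linarith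
  have hexpLW : Real.exp LW = (n : ℝ) ^ 2 * Real.exp i := by
    rw [hLW, Real.exp_add, two_mul, Real.exp_add, Real.exp_log hn0]; ring
  set B : ℕ := ⌈LW / (a * Real.log n)⌉₊ with hB
  have hal : 0 < a * Real.log n := by positivity
  have hBlow : LW ≤ a * B * Real.log n := by
    have h5 : LW / (a * Real.log n) ≤ B := Nat.le_ceil _
    rw [div_le_iff₀ hal] at h5
    linarith
  have hBup : (B : ℝ) < LW / (a * Real.log n) + 1 := Nat.ceil_lt_add_one (by positivity)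
  have hBup2 : a * B * Real.log n ≤ LW + a * Real.log n := by
    have h5 := mul_le_mul_of_nonneg_right hBup.le hal.le
    have h6 : (LW / (a * Real.log n) + 1) * (a * Real.log n) = LW + a * Real.log n := by
      field_simp
    rw [h6] at h5
    linarith
  have h4B : (4 * B : ℝ) ≤ (n : ℝ) ^ δ := by
    have h5 : a * B * Real.log n ≤ (2 * Real.log n + (n : ℝ) ^ θ * Real.log n) +
        a * Real.log n := by
      refine hBup2.trans ?_
      rw [hLW]
      have : (i : ℝ) ≤ (n : ℝ) ^ θ * Real.log n := by nlinarith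
      linarith
    have h6 : a * B ≤ 2 + (n : ℝ) ^ θ + a := by
      have h7 : a * B * Real.log n ≤ (2 + (n : ℝ) ^ θ + a) * Real.log n := by linarith
      exact le_of_mul_le_mul_right h7 (by linarith)
    have h8 : (B : ℝ) ≤ 4 + 3 / 2 * (n : ℝ) ^ θ := by
      have ha23 : 2 / 3 ≤ a := by rw [ha']; linarith
      have h9 : a * B ≤ a * (4 + 3 / 2 * (n : ℝ) ^ θ) := by
        have h10 := mul_le_mul_of_nonneg_right ha23 hnθ0
        linarith
      exact le_of_mul_le_mul_left h9 ha0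
    have h9 : (n : ℝ) ^ δ = (n : ℝ) ^ (ε / 2) * (n : ℝ) ^ θ := by
      rw [← Real.rpow_add hn0]; congr 1; rw [hδ, hθ]; ring
    have h10 : 1 ≤ (n : ℝ) ^ θ := Real.one_le_rpow hn1 (by rw [hθ]; linarith)
    rw [h9]
    have h11 := mul_le_mul_of_nonneg_right h2 hnθ0
    linarith
  have hY : (1 : ℝ) ≤ Real.exp (i + 1) := Real.one_le_exp (by linarith)
  have hlog4 : Real.log 4 ≤ 2 := by
    have : Real.log 4 = 2 * Real.log 2 := by
      rw [show (4 : ℝ) = 2 ^ 2 by norm_num, Real.log_pow]; push_cast; ring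
    rw [this]
    linarith [Real.log_two_lt_d9]
  have hYB : 16 * Real.exp (i + 1) * (1 + Real.log (4 * Real.exp (i + 1) ^ 2)) ≤
      (n : ℝ) ^ ((1 - η - δ) * B) := by
    have h5 : Real.log (4 * Real.exp (i + 1) ^ 2) = Real.log 4 + 2 * (i + 1) := by
      rw [Real.log_mul (by norm_num) (by positivity), Real.log_pow, Real.log_exp]
      push_cast; ring
    have h6 : Real.exp LW ≤ (n : ℝ) ^ ((1 - η - δ) * B) := by
      rw [Real.rpow_def_of_pos hn0]
      apply Real.exp_le_exp.mpr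
      rw [← ha]
      linarith
    refine le_trans ?_ h6
    rw [h5, hexpLW, Real.exp_add]
    have h7 := Real.exp_one_lt_d9
    have h8 : 1 + (Real.log 4 + 2 * ((i : ℝ) + 1)) ≤ 7 * n := by linarith
    have h9 : 0 < Real.exp (i : ℝ) := Real.exp_pos _
    have h10 : 0 < Real.exp (1 : ℝ) := Real.exp_pos _
    calc 16 * (Real.exp i * Real.exp 1) * (1 + (Real.log 4 + 2 * ((i : ℝ) + 1)))
        ≤ 16 * (Real.exp i * Real.exp 1) * (7 * n) := by gcongr
      _ = (112 * Real.exp 1) * n * Real.exp i := by ring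
      _ ≤ n * n * Real.exp i := by
          gcongr
          linarith
      _ = _ := by ring
  have hcl := few_classes B n δ η X (Real.exp (i + 1)) (by omega) hY hK hXK h4B hYB κ σ T
    (fun D hD => (hT D hD).1) (fun D hD => (hT D hD).2.2.2.le)
  -- the bound for the number of classes
  have hcl2 : ((T.image κ).card : ℝ) ≤ 4 * Real.exp (2 * Real.log n + (1 / 2 - c₁) * i) := by
    refine hcl.trans ?_
    rw [Real.rpow_def_of_pos hn0]
    apply mul_le_mul_of_nonneg_left _ (by norm_num)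
    apply Real.exp_le_exp.mpr
    have h5 : Real.log n * ((δ + η) * B) = ((δ + η) / a) * (a * B * Real.log n) := by
      field_simp
    rw [h5]
    have h6 := mul_le_mul_of_nonneg_left hBup2 hκ0
    refine h6.trans ?_
    have h7 : (1 / 2 - c₁) = (δ + η) / a := by rw [hc₁]; ring
    rw [h7, hLW]
    have h8 : (δ + η) / a * (2 * Real.log n + i + a * Real.log n) =
        ((δ + η) / a) * (2 * Real.log n) + (δ + η) / a * i + (δ + η) * Real.log n := by
      field_simp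
    rw [h8]
    have h9 : ((δ + η) / a) * (2 * Real.log n) ≤ 1 / 2 * (2 * Real.log n) :=
      mul_le_mul_of_nonneg_right hκ (by linarith)
    have h10 : (δ + η) * Real.log n ≤ 1 * Real.log n :=
      mul_le_mul_of_nonneg_right (by rw [hδη]; linarith) (by linarith)
    linarith
  have ht := tot X (Real.exp i) _ (Real.exp_pos _) T κ σ (by
    intro D hD
    obtain ⟨⟨g1, g2, g3, g4, g5, g6⟩, -, hsm, -⟩ := hT D hD
    exact ⟨g1, g4, g5, g3.ne_zero, hsm⟩) hcl2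
  refine ht.trans ?_
  have hsq : √(Real.exp i) = Real.exp (i / 2) := by
    rw [show Real.exp (i : ℝ) = Real.exp (i / 2) * Real.exp (i / 2) by
      rw [← Real.exp_add]; congr 1; ring]
    exact Real.sqrt_mul_self (Real.exp_pos _).le
  rw [hsq]
  have h5 : 4 * Real.exp (2 * Real.log n + (1 / 2 - c₁) * i) * (√X / Real.exp (i / 2)) =
      4 * √X * Real.exp (2 * Real.log n - c₁ * i) := by
    rw [mul_div_assoc', mul_comm (4 * Real.exp _) (√X), mul_div_assoc, mul_div_assoc,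
      ← Real.exp_sub]
    rw [show 2 * Real.log n + (1 / 2 - c₁) * (i : ℝ) - i / 2 = 2 * Real.log n - c₁ * i by ring]
    ring
  rw [h5]
  have h6 : Real.exp (2 * Real.log n - c₁ * i) ≤ Real.exp 1 / (n : ℝ) ^ 10 := by
    have h7 : Real.exp 1 / (n : ℝ) ^ 10 = Real.exp (1 - 10 * Real.log n) := by
      rw [Real.exp_sub, show (10 : ℝ) * Real.log n = ((10 : ℕ) : ℝ) * Real.log n by norm_num,
        Real.exp_nat_mul, Real.exp_log hn0]
    rw [h7]
    apply Real.exp_le_exp.mpr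
    linarith
  have h7 := Real.exp_one_lt_d9
  calc 4 * √X * Real.exp (2 * Real.log n - c₁ * i) ≤ 4 * √X * (Real.exp 1 / (n : ℝ) ^ 10) := by
        gcongr
    _ = √X * (4 * Real.exp 1) / (n : ℝ) ^ 10 := by ring
    _ ≤ √X * (n : ℝ) / (n : ℝ) ^ 10 := by gcongr; linarith
    _ = √X / (n : ℝ) ^ 9 := by field_simp
    _ ≤ √X / (n : ℝ) ^ 6 := by
        apply div_le_div_of_nonneg_left (Real.sqrt_nonneg _) (by positivity)
        exact pow_le_pow_right₀ hn1 (by norm_num)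

lemma large (ε : ℝ) (hε : 0 < ε) (hε1 : ε ≤ 1 / 6) : ∃ A : ℝ, 0 ≤ A ∧ ∀ᶠ n : ℕ in atTop,
    ∀ X : ℝ, Real.log X ≤ (n : ℝ) ^ (1 / 3 - ε : ℝ) → ∀ κ σ : ℤ → ℤ, ∀ T : Finset ℤ,
    (∀ D ∈ T, Good n X κ σ D ∧ (n : ℝ) ^ A < |(κ D : ℝ)|) →
    (T.card : ℝ) ≤ √X / (n : ℝ) ^ 4 := by
  classical
  obtain ⟨A, hA, h⟩ := one_class ε hε hε1
  refine ⟨A, hA, ?_⟩
  filter_upwards [h, eventually_ge_atTop 2] with n h1 hn X hX κ σ T hT
  have hn0 : (0 : ℝ) < n := by positivity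
  have hn2 : (2 : ℝ) ≤ n := by exact_mod_cast hn
  have hn1 : (1 : ℝ) ≤ n := by linarith
  have hnθ : (n : ℝ) ^ (1 / 3 - ε : ℝ) ≤ n := by
    calc (n : ℝ) ^ (1 / 3 - ε : ℝ) ≤ (n : ℝ) ^ (1 : ℝ) :=
          Real.rpow_le_rpow_of_exponent_le hn1 (by linarith)
      _ = n := Real.rpow_one _
  have hlog : ∀ D ∈ T, 0 ≤ Real.log |(κ D : ℝ)| ∧
      Real.log |(κ D : ℝ)| ≤ (n : ℝ) ^ (1 / 3 - ε : ℝ) := by
    intro D hD
    obtain ⟨⟨g1, g2, g3, g4, g5, g6⟩, -⟩ := hT D hD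
    have hk1 : (1 : ℝ) ≤ |(κ D : ℝ)| := by
      have : (1 : ℤ) ≤ |κ D| := Int.one_le_abs g3.ne_zero
      have h' : ((1 : ℤ) : ℝ) ≤ ((|κ D| : ℤ) : ℝ) := by exact_mod_cast this
      rwa [Int.cast_abs, Int.cast_one] at h'
    refine ⟨Real.log_nonneg hk1, le_trans ?_ hX⟩
    apply Real.log_le_log (by linarith)
    refine le_trans ?_ g1
    conv_rhs => rw [g5]
    push_cast
    rw [abs_mul]
    have hs1 : (1 : ℝ) ≤ |(σ D : ℝ) ^ 2| := by
      have : (1 : ℝ) ≤ (σ D : ℝ) := by exact_mod_cast g4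
      rw [abs_of_nonneg (sq_nonneg _)]
      nlinarith
    nlinarith [abs_nonneg (κ D : ℝ)]
  have hmaps : ∀ D ∈ T, ⌊Real.log |(κ D : ℝ)|⌋₊ ∈ range (n + 1) := by
    intro D hD
    rw [mem_range, Nat.lt_succ_iff]
    apply Nat.floor_le_of_le
    exact (hlog D hD).2.trans hnθ
  have hsum := Finset.card_eq_sum_card_fiberwise (f := fun D : ℤ => ⌊Real.log |(κ D : ℝ)|⌋₊)
    (s := T) (t := range (n + 1)) (fun D hD => hmaps D hD)
  have hsum' : (T.card : ℝ) = ∑ i ∈ range (n + 1),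
      ((T.filter fun D : ℤ => ⌊Real.log |(κ D : ℝ)|⌋₊ = i).card : ℝ) := by
    exact_mod_cast hsum
  have hone : ∀ i ∈ range (n + 1),
      ((T.filter fun D : ℤ => ⌊Real.log |(κ D : ℝ)|⌋₊ = i).card : ℝ) ≤ √X / (n : ℝ) ^ 6 := by
    intro i _
    rcases (T.filter fun D : ℤ => ⌊Real.log |(κ D : ℝ)|⌋₊ = i).eq_empty_or_nonempty with h0 | h0
    · rw [h0, card_empty, Nat.cast_zero]; positivity
    obtain ⟨D₀, hD₀⟩ := h0
    rw [mem_filter] at hD₀
    have hi : (i : ℝ) ≤ (n : ℝ) ^ (1 / 3 - ε : ℝ) := by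
      rw [← hD₀.2]
      exact (Nat.floor_le (hlog D₀ hD₀.1).1).trans (hlog D₀ hD₀.1).2
    apply h1 X hX κ σ i hi
    intro D hD
    rw [mem_filter] at hD
    have hk : 0 < |(κ D : ℝ)| := by
      have := (hT D hD.1).1.2.2.1.ne_zero
      have : (κ D : ℝ) ≠ 0 := by exact_mod_cast this
      positivity
    refine ⟨(hT D hD.1).1, (hT D hD.1).2, ?_, ?_⟩
    · rw [← Real.le_log_iff_exp_le hk, ← hD.2]
      exact Nat.floor_le (hlog D hD.1).1
    · rw [← Real.log_lt_iff_lt_exp hk, ← hD.2]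
      exact Nat.lt_floor_add_one _
  rw [hsum']
  calc ∑ i ∈ range (n + 1), ((T.filter fun D : ℤ => ⌊Real.log |(κ D : ℝ)|⌋₊ = i).card : ℝ)
      ≤ ∑ _i ∈ range (n + 1), √X / (n : ℝ) ^ 6 := sum_le_sum hone
    _ = ((n : ℝ) + 1) * (√X / (n : ℝ) ^ 6) := by
        rw [sum_const, nsmul_eq_mul, card_range]; push_cast; ring
    _ ≤ ((n : ℝ) ^ 2) * (√X / (n : ℝ) ^ 6) := by
        apply mul_le_mul_of_nonneg_right _ (by positivity)
        nlinarith
    _ = √X / (n : ℝ) ^ 4 := by field_simp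

end Pool.Agent.T3h91.EC
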