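import Pool.Agent.R920.CH.Two
import Mathlib.Algebra.Group.ForwardDiff

set_option autoImplicit false

/-! Pairs which are congruent to split ones modulo `n !` satisfy the Riemann-Roch conditions. -/

open Finset Polynomial

namespace Pool.Agent.T3h91.EC

open Pool.Agent.R920.CH

/-- sums of powers of the roots -/
lemma pow_mod (c₁ c₂ : ℤ) (x y : ℂ) (h1 : x + y = c₁) (h2 : x * y = c₂) : ∀ n : ℕ,
    ∃ z : ℤ, x ^ n + y ^ n = ((c₁ ^ n + 0 ^ n + c₂ * z : ℤ) : ℂ) := by
  intro n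
  induction n using Nat.twoStepInduction with
  | zero => exact ⟨0, by push_cast; norm_num⟩
  | one => exact ⟨0, by push_cast; rw [pow_one, pow_one, h1]; ring⟩
  | more n ih0 ih1 =>
    obtain ⟨z0, hz0⟩ := ih0
    obtain ⟨z1, hz1⟩ := ih1
    refine ⟨c₁ * z1 - (c₁ ^ n + 0 ^ n + c₂ * z0), ?_⟩
    have e : x ^ (n + 2) + y ^ (n + 2) = (x + y) * (x ^ (n + 1) + y ^ (n + 1)) -
        (x * y) * (x ^ n + y ^ n) := by ring
    rw [e, hz0, hz1, h1, h2]
    push_cast
    ring

lemma trace_mod (c₁ c₂ : ℤ) (x y : ℂ) (h1 : x + y = c₁) (h2 : x * y = c₂) (g : ℤ[X]) :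
    ∃ z : ℤ, aeval x g + aeval y g = ((g.eval c₁ + g.eval 0 + c₂ * z : ℤ) : ℂ) := by
  induction g using Polynomial.induction_on' with
  | add p q hp hq =>
    obtain ⟨z, hz⟩ := hp
    obtain ⟨w, hw⟩ := hq
    refine ⟨z + w, ?_⟩
    rw [map_add, map_add, eval_add, eval_add]
    have e : aeval x p + aeval x q + (aeval y p + aeval y q) =
        (aeval x p + aeval y p) + (aeval x q + aeval y q) := by ring
    rw [e, hz, hw]
    push_cast
    ring
  | monomial n a =>
    obtain ⟨z, hz⟩ := pow_mod c₁ c₂ x y h1 h2 n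
    refine ⟨a * z, ?_⟩
    rw [aeval_monomial, aeval_monomial, eval_monomial, eval_monomial, ← mul_add, hz]
    simp only [algebraMap_int_eq, eq_intCast]
    push_cast
    ring

/-- forward differences of functions which take integers to integers -/
lemma diff_int (g : ℚ → ℚ) (hg : ∀ m : ℤ, ∃ z : ℤ, g m = z) : ∀ k : ℕ, ∀ m : ℤ, ∃ z : ℤ,
    ((fwdDiff (1 : ℚ))^[k] g) (m : ℚ) = z := by
  intro k
  induction k with
  | zero => intro m; exact hg m
  | succ k ih =>
    intro m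
    obtain ⟨z, hz⟩ := ih m
    obtain ⟨w, hw⟩ := ih (m + 1)
    refine ⟨w - z, ?_⟩
    rw [Function.iterate_succ_apply', fwdDiff]
    push_cast at hw ⊢
    rw [hw, hz]

/-- Newton's expansion -/
lemma newton (n : ℕ) (f : ℚ[X]) (hf : f.natDegree ≤ n) :
    f = ∑ k ∈ range (n + 1), C (((fwdDiff (1 : ℚ))^[k] f.eval) 0) * bin k := by
  apply Polynomial.eq_of_infinite_eval_eq
  apply Set.Infinite.mono (s := Set.range (fun m : ℕ => (m : ℚ)))
  · rintro _ ⟨m, rfl⟩
    show f.eval (m : ℚ) = _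
    have h1 := shift_eq_sum_fwdDiff_iter (1 : ℚ) f.eval m 0
    rw [nsmul_one, zero_add] at h1
    rw [h1, eval_finsetSum]
    have h2 : ∀ k, (C (((fwdDiff (1 : ℚ))^[k] f.eval) 0) * bin k).eval (m : ℚ) =
        m.choose k • ((fwdDiff (1 : ℚ))^[k] f.eval) 0 := by
      intro k
      rw [eval_mul, eval_C, nsmul_eq_mul, mul_comm]
      congr 1
      rw [bin, eval_mul, eval_C, descPochhammer_eval_eq_descFactorial,
        Nat.descFactorial_eq_factorial_mul_choose]
      push_cast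
      have : (k.factorial : ℚ) ≠ 0 := by exact_mod_cast k.factorial_ne_zero
      field_simp
    simp_rw [h2]
    have hL : ∑ k ∈ range (m + 1), m.choose k • ((fwdDiff (1 : ℚ))^[k] f.eval) 0 =
        ∑ k ∈ range (m + n + 1), m.choose k • ((fwdDiff (1 : ℚ))^[k] f.eval) 0 := by
      apply sum_subset
      · intro k hk
        rw [mem_range] at hk ⊢
        omega
      · intro k _ hk
        rw [mem_range] at hk
        rw [Nat.choose_eq_zero_of_lt (by omega), zero_smul]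
    have hR : ∑ k ∈ range (n + 1), m.choose k • ((fwdDiff (1 : ℚ))^[k] f.eval) 0 =
        ∑ k ∈ range (m + n + 1), m.choose k • ((fwdDiff (1 : ℚ))^[k] f.eval) 0 := by
      apply sum_subset
      · intro k hk
        rw [mem_range] at hk ⊢
        omega
      · intro k _ hk
        rw [mem_range] at hk
        rw [Polynomial.fwdDiff_iter_eq_zero_of_degree_lt (by omega), Pi.zero_apply, smul_zero]
    rw [hL, hR]
  · exact Set.infinite_range_of_injective Nat.cast_injective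

/-- The Riemann-Roch conditions modulo `n !`. -/
theorem rr_mod (n : ℕ) (c₁ c₂ : ℤ) (h : ((n.factorial : ℕ) : ℤ) ∣ c₂) :
    RiemannRoch n (poly2 c₁ c₂) := by
  classical
  intro f hfi hfd
  obtain ⟨x, y, hxy, h1, h2⟩ := roots2 c₁ c₂
  rw [hxy]
  have hsum : ((({x, y} : Multiset ℂ).map fun x => aeval x f).sum) = aeval x f + aeval y f := by
    simp
  rw [hsum]
  have hbin : ∀ k ≤ n, ∃ z : ℤ, aeval x (bin k) + aeval y (bin k) = z := by
    intro k hk
    obtain ⟨z, hz⟩ := trace_mod c₁ c₂ x y h1 h2 (descPochhammer ℤ k)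
    have hd : ((k.factorial : ℕ) : ℤ) ∣ c₂ := by
      refine dvd_trans ?_ h
      exact_mod_cast Nat.factorial_dvd_factorial hk
    obtain ⟨w, hw⟩ := hd
    have hev : ∀ c : ℤ, (descPochhammer ℤ k).eval c = k.factorial * Ring.choose c k := by
      intro c
      rw [← nsmul_eq_mul, ← Ring.descPochhammer_eq_factorial_smul_choose c k,
        ← Polynomial.eval_eq_smeval]
    have hae : ∀ t : ℂ, aeval t (bin k) = ((k.factorial : ℂ)⁻¹) * aeval t (descPochhammer ℤ k) := by
      intro t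
      rw [aeval_bin]
      congr 1
      have h3 : aeval t (descPochhammer ℤ k) = (descPochhammer ℂ k).eval t := by
        rw [← descPochhammer_map (algebraMap ℤ ℂ) k, eval_map]
        rfl
      rw [h3, descPochhammer_eval_eq_prod_range]
    refine ⟨Ring.choose c₁ k + Ring.choose 0 k + w * z, ?_⟩
    rw [hae, hae, ← mul_add, hz, hev, hev, hw]
    have : (k.factorial : ℂ) ≠ 0 := by exact_mod_cast k.factorial_ne_zero
    push_cast
    field_simp
  have hnew := newton n f hfd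
  have hdi := diff_int f.eval hfi
  have hd0 : ∀ k, ∃ z : ℤ, ((fwdDiff (1 : ℚ))^[k] f.eval) 0 = (z : ℚ) := by
    intro k
    have := hdi k 0
    rwa [Int.cast_zero] at this
  choose d hd using hd0
  choose! b hb using hbin
  refine ⟨∑ k ∈ range (n + 1), d k * b k, ?_⟩
  rw [hnew, map_sum, map_sum, ← sum_add_distrib]
  push_cast
  refine sum_congr rfl fun k hk => ?_
  rw [mem_range] at hk
  rw [map_mul, map_mul, aeval_C, aeval_C, ← mul_add, hb k (by omega), hd]
  simp

lemma not_split (c₁ c₂ : ℤ) (h : ¬ IsSquare (c₁ ^ 2 - 4 * c₂)) :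
    ¬ ∃ a b : ℤ, c₁ = a + b ∧ c₂ = a * b := by
  rintro ⟨a, b, rfl, rfl⟩
  exact h ⟨a - b, by ring⟩

/-- **Many exceptional pairs.** -/
theorem many (n : ℕ) (t H : ℝ) (ht : 1 ≤ t) (hH : 6 * t * (n.factorial : ℝ) ≤ H) :
    ∃ S : Finset (ℤ × ℤ), (∀ c ∈ S, |(c.1 : ℝ)| ≤ H ∧ |(c.2 : ℝ)| ≤ H ^ 2 ∧
      RiemannRoch n (poly2 c.1 c.2) ∧ ¬ ∃ a b : ℤ, c.1 = a + b ∧ c.2 = a * b) ∧
      t * H ^ 2 ≤ (S.card : ℝ) := by
  classical
  set N : ℕ := n.factorial with hN
  have hN1 : 1 ≤ N := Nat.factorial_pos n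
  have hN1' : (1 : ℝ) ≤ N := by exact_mod_cast hN1
  have hN0 : (0 : ℝ) < N := by linarith
  have hNz : (0 : ℤ) < N := by exact_mod_cast hN1
  have h6t : 6 * t ≤ H := by nlinarith
  have hH6 : 6 ≤ H := by linarith
  set h : ℕ := ⌊H⌋₊ with hh
  set m : ℕ := ⌊H ^ 2 / N⌋₊ with hm
  have hhH : (h : ℝ) ≤ H := Nat.floor_le (by linarith)
  have hHh : H < h + 1 := Nat.lt_floor_add_one H
  have hmH : (m : ℝ) ≤ H ^ 2 / N := Nat.floor_le (by positivity)
  have hHm : H ^ 2 / N < m + 1 := Nat.lt_floor_add_one _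
  set P : Finset (ℕ × ℕ) := Icc 1 h ×ˢ Icc 1 m with hP
  have hPc : P.card = h * m := by
    rw [hP, card_product, Nat.card_Icc, Nat.card_Icc, Nat.add_sub_cancel, Nat.add_sub_cancel]
  set g : ℕ × ℕ → ℤ := fun q => (q.1 : ℤ) ^ 2 + 4 * ((q.2 : ℤ) * N) with hg
  set P₁ := P.filter fun q => ¬ IsSquare (g q) with hP₁
  set P₂ := P.filter fun q => IsSquare (g q) with hP₂
  have hsplit : P₂.card + P₁.card = P.card := card_filter_add_card_filter_not _
  have hmem : ∀ q ∈ P, (q.1 : ℝ) ≤ H ∧ (q.2 : ℝ) * N ≤ H ^ 2 := by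
    intro q hq
    rw [hP, mem_product, mem_Icc, mem_Icc] at hq
    have h1 : (q.1 : ℝ) ≤ h := by exact_mod_cast hq.1.2
    have h2 : (q.2 : ℝ) ≤ m := by exact_mod_cast hq.2.2
    refine ⟨by linarith, ?_⟩
    have h3 := h2.trans hmH
    rwa [le_div_iff₀ hN0] at h3
  -- the squares
  have hbad : (P₂.card : ℝ) ≤ 3 * H ^ 2 := by
    have hc : P₂.card ≤ (Icc 1 h ×ˢ range (⌊5 / 2 * H⌋₊ + 1)).card := by
      have hroot : ∀ q ∈ P₂, ∃ s : ℕ, ((s : ℤ)) * s = g q := by
        intro q hq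
        obtain ⟨r, hr⟩ := (mem_filter.mp hq).2
        exact ⟨r.natAbs, by rw [Int.natAbs_mul_self', ← hr]⟩
      choose! s hs using hroot
      apply Finset.card_le_card_of_injOn (fun q => (q.1, s q))
      · intro q hq
        have hq' := (mem_filter.mp hq).1
        have hq2 := hq'
        rw [hP, mem_product] at hq2
        rw [Finset.mem_coe, mem_product]
        refine ⟨hq2.1, ?_⟩
        show s q ∈ range (⌊5 / 2 * H⌋₊ + 1)
        rw [mem_range, Nat.lt_succ_iff]
        apply Nat.le_floor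
        have h1 := hs q hq
        have h2 : ((s q : ℝ)) * s q = (q.1 : ℝ) ^ 2 + 4 * ((q.2 : ℝ) * N) := by
          have h3 : (((s q : ℤ) * s q : ℤ) : ℝ) = ((g q : ℤ) : ℝ) := by rw [h1]
          rw [hg] at h3
          push_cast at h3
          exact h3
        obtain ⟨h4, h5⟩ := hmem q hq'
        have h6 : (q.1 : ℝ) ^ 2 ≤ H ^ 2 := pow_le_pow_left₀ (Nat.cast_nonneg _) h4 2
        have h7 : (s q : ℝ) ^ 2 ≤ (5 / 2 * H) ^ 2 := by nlinarith
        exact le_of_sq_le_sq h7 (by linarith)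
      · intro q hq r hr hqr
        simp only [Prod.mk.injEq] at hqr
        obtain ⟨h1, h2⟩ := hqr
        have h3 := hs q hq
        have h4 := hs r hr
        rw [h2] at h3
        have h5 : g q = g r := by rw [← h3, ← h4]
        rw [hg] at h5
        simp only at h5
        rw [h1] at h5
        have h6 : (q.2 : ℤ) * N = (r.2 : ℤ) * N := by linarith
        have h7 : (q.2 : ℤ) = r.2 := mul_right_cancel₀ hNz.ne' h6
        exact Prod.ext h1 (by exact_mod_cast h7)
    rw [card_product, Nat.card_Icc, Nat.add_sub_cancel, card_range] at hc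
    have hc' : (P₂.card : ℝ) ≤ (h : ℝ) * (⌊5 / 2 * H⌋₊ + 1) := by exact_mod_cast hc
    have h1 : ((⌊5 / 2 * H⌋₊ : ℕ) : ℝ) ≤ 5 / 2 * H := Nat.floor_le (by linarith)
    have h0 : (0 : ℝ) ≤ h := Nat.cast_nonneg _
    calc (P₂.card : ℝ) ≤ (h : ℝ) * (⌊5 / 2 * H⌋₊ + 1) := hc'
      _ ≤ H * (5 / 2 * H + 1) := mul_le_mul hhH (by linarith) (by positivity) (by linarith)
      _ ≤ 3 * H ^ 2 := by nlinarith
  -- all of them
  have hall : 4 * t * H ^ 2 ≤ (P.card : ℝ) := by
    rw [hPc]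
    push_cast
    have h1 : 6 * t * H ≤ H ^ 2 / N := by
      rw [le_div_iff₀ hN0]
      have h2 : 6 * t * (N : ℝ) * H ≤ H * H := mul_le_mul_of_nonneg_right hH (by linarith)
      nlinarith
    have h2 : 5 * t * H ≤ m := by nlinarith
    have h3 : 4 / 5 * H ≤ h := by linarith
    have h4 : 4 / 5 * H * (5 * t * H) ≤ h * m :=
      mul_le_mul h3 h2 (by positivity) (Nat.cast_nonneg _)
    calc 4 * t * H ^ 2 = 4 / 5 * H * (5 * t * H) := by ring
      _ ≤ _ := h4
  have hP₁c : t * H ^ 2 ≤ (P₁.card : ℝ) := by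
    have h1 : (P₂.card : ℝ) + P₁.card = P.card := by exact_mod_cast hsplit
    have h2 : 0 ≤ H ^ 2 := sq_nonneg H
    nlinarith
  refine ⟨P₁.image fun q => ((q.1 : ℤ), -((q.2 : ℤ) * N)), ?_, ?_⟩
  · intro c hc
    rw [Finset.mem_image] at hc
    obtain ⟨q, hq, rfl⟩ := hc
    rw [hP₁, mem_filter] at hq
    obtain ⟨h1, h2⟩ := hmem q hq.1
    refine ⟨?_, ?_, ?_, ?_⟩
    · simp only [Int.cast_natCast]
      rwa [abs_of_nonneg (Nat.cast_nonneg _)]
    · push_cast
      rw [abs_neg, abs_of_nonneg (by positivity)]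
      exact h2
    · exact rr_mod n _ _ ⟨-(q.2 : ℤ), by rw [← hN]; ring⟩
    · apply not_split
      have e : (q.1 : ℤ) ^ 2 - 4 * -((q.2 : ℤ) * N) = g q := by rw [hg]; ring
      rw [e]
      exact hq.2
  · rw [card_image_of_injective]
    · exact hP₁c
    · intro q r hqr
      simp only [Prod.mk.injEq, neg_inj] at hqr
      have h1 : (q.2 : ℤ) = r.2 := mul_right_cancel₀ hNz.ne' hqr.2
      exact Prod.ext (by exact_mod_cast hqr.1) (by exact_mod_cast h1)

end Pool.Agent.T3h91.EC
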