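import Pool.Agent.R852.LK.Per
import Pool.Agent.H38R2.CG.PV

set_option autoImplicit false

/-! The inequality of Polya and Vinogradov for the symbols `(D / m)`. -/

open Finset

namespace Pool.Agent.T3h91.EC

open Pool.Agent.R852.LK

lemma exists_psChar (D : ℤ) (hD : D ≠ 0) : ∃ χ : DirichletCharacter ℂ (4 * D.natAbs),
    ∀ m : ℕ, χ (m : ZMod (4 * D.natAbs)) = (ps D m : ℂ) := by
  have hP0 : 0 < 4 * D.natAbs := Nat.mul_pos (by norm_num) (Int.natAbs_pos.mpr hD)
  have : NeZero (4 * D.natAbs) := ⟨hP0.ne'⟩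
  have hval : ∀ m : ℕ, ps D ((m : ZMod (4 * D.natAbs)).val) = ps D m := by
    intro m
    rw [ZMod.val_natCast, ps_mod]
  let f : ZMod (4 * D.natAbs) →* ℂ :=
    { toFun := fun a => (ps D a.val : ℂ)
      map_one' := by
        have h := hval 1
        rw [Nat.cast_one, ps_one] at h
        show ((ps D (1 : ZMod (4 * D.natAbs)).val : ℤ) : ℂ) = 1
        rw [h]; norm_num
      map_mul' := by
        intro a b
        show ((ps D (a * b).val : ℤ) : ℂ) = ((ps D a.val : ℤ) : ℂ) * ((ps D b.val : ℤ) : ℂ)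
        rw [ZMod.val_mul, ps_mod, ps_mul]
        push_cast; ring }
  have hnon : ∀ a : ZMod (4 * D.natAbs), ¬ IsUnit a → f a = 0 := by
    intro a ha
    show ((ps D a.val : ℤ) : ℂ) = 0
    have h1 : ¬ Nat.Coprime a.val (4 * D.natAbs) := by
      rw [← ZMod.isUnit_iff_coprime, ZMod.natCast_zmod_val]
      exact ha
    have h2 : ps D a.val = 0 := by
      unfold ps
      split_ifs with ho
      · have hv0 : a.val ≠ 0 := by
          intro h; rw [h] at ho; simp at ho
        have : NeZero a.val := ⟨hv0⟩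
        rw [jacobiSym.eq_zero_iff_not_coprime]
        intro hg
        apply h1
        have h3 : Nat.Coprime a.val D.natAbs := by
          have : Int.gcd D a.val = Nat.gcd D.natAbs a.val := rfl
          rw [this] at hg
          exact Nat.Coprime.symm hg
        have h4 : Nat.Coprime a.val 4 := by
          have : Nat.Coprime a.val (2 ^ 2) :=
            Nat.Coprime.pow_right 2 (Nat.coprime_two_right.mpr ho)
          simpa using this
        exact Nat.Coprime.mul_right h4 h3
      · rfl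
    rw [h2]; norm_num
  refine ⟨⟨f, hnon⟩, fun m => ?_⟩
  show ((ps D ((m : ZMod (4 * D.natAbs)).val) : ℤ) : ℂ) = _
  rw [hval]

/-- **Polya-Vinogradov.** -/
lemma pv_bound (D : ℤ) (hD0 : D ≠ 0) (hD : ¬ IsSquare D) (M : ℕ) :
    |((∑ m ∈ range M, ps D m : ℤ) : ℝ)| ≤
      4 * √(4 * |(D : ℝ)|) * (1 + Real.log (4 * |(D : ℝ)|)) := by
  obtain ⟨χ, hχ⟩ := exists_psChar D hD0
  have hD1 : 1 ≤ D.natAbs := Int.natAbs_pos.mpr hD0
  have hne : χ ≠ 1 := by
    rintro rfl
    obtain ⟨l, hl1, hl2⟩ := exists_neg D hD0 hD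
    have h1 := hχ l
    have h2 : ps D l = -1 := by unfold ps; rw [if_pos hl1, hl2]
    rw [h2] at h1
    by_cases hu : IsUnit (l : ZMod (4 * D.natAbs))
    · rw [MulChar.one_apply hu] at h1
      norm_num at h1
    · rw [MulChar.map_nonunit _ hu] at h1
      norm_num at h1
  have hcast : ((4 * D.natAbs : ℕ) : ℝ) = 4 * |(D : ℝ)| := by
    push_cast [Nat.cast_natAbs]; ring
  have h := Pool.Agent.H38R2.CG.PVh.sum_le (4 * D.natAbs) χ (by omega) hne (M - 1)
  rw [hcast] at h
  refine le_trans (le_of_eq ?_) h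
  have h0 : ps D 0 = 0 := by unfold ps; rw [if_neg (by simp)]
  have hs : ∑ m ∈ range M, ps D m = ∑ m ∈ Icc 1 (M - 1), ps D m := by
    rcases Nat.eq_zero_or_pos M with rfl | hM
    · simp
    · have e : range M = insert 0 (Icc 1 (M - 1)) := by
        ext x
        simp only [mem_range, mem_insert, mem_Icc]
        omega
      rw [e, sum_insert (by simp), h0, zero_add]
  have h1 : ∑ m ∈ Icc 1 (M - 1), χ (m : ZMod (4 * D.natAbs)) =
      (((∑ m ∈ range M, ps D m : ℤ) : ℝ) : ℂ) := by
    rw [hs]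
    push_cast
    exact sum_congr rfl fun m _ => hχ m
  rw [h1, Complex.norm_real, Real.norm_eq_abs]

end Pool.Agent.T3h91.EC
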