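import Pool.Agent.T3h91.EC.Cls

set_option autoImplicit false

/-! The three ranges of the squarefree part. -/

open Finset Filter Topology

namespace Pool.Agent.T3h91.EC

open Pool.Agent.R852.LK Pool.Agent.R852.BC Pool.Agent.R920.CH

lemma small (ε : ℝ) (hε : 0 < ε) : ∀ᶠ n : ℕ in atTop, ∀ X : ℝ, ∀ κ σ : ℤ → ℤ,
    ∀ T : Finset ℤ,
    (∀ D ∈ T, Good n X κ σ D ∧ |(κ D : ℝ)| ≤ (n : ℝ) ^ (4 * Real.exp (1 / 2) - ε)) →
    (T.card : ℝ) ≤ √X / (n : ℝ) ^ 4 := by
  classical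
  filter_upwards [main_sub 2 1 12 ε (by norm_num) hε, eventually_ge_atTop 3] with n hmain hn3
    X κ σ T hT
  have hn0 : (0 : ℝ) < n := by positivity
  have hn3' : (3 : ℝ) ≤ n := by exact_mod_cast hn3
  have hn1 : (1 : ℝ) ≤ n := by linarith
  have hsum : (T.card : ℝ) = ∑ f ∈ T.image κ, ((T.filter fun D => κ D = f).card : ℝ) := by
    have := Finset.card_eq_sum_card_image κ T
    exact_mod_cast this
  have hfib : ∀ f ∈ T.image κ, ((T.filter fun D => κ D = f).card : ℝ) ≤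
      √X / (n : ℝ) ^ 12 := by
    intro f hf
    obtain ⟨D, hD, rfl⟩ := Finset.mem_image.mp hf
    obtain ⟨⟨g1, g2, g3, g4, g5, g6⟩, hsm⟩ := hT D hD
    set b : ℕ := ∏ p ∈ inert n (κ D), p with hb
    have hbpos : 0 < b := Finset.prod_pos fun p hp =>
      (mem_PR.mp (mem_filter.mp hp).1).2.1.pos
    have hbig : (n : ℝ) ^ 12 < b := by
      by_contra hcon
      push Not at hcon
      have hsq : IsSquare (κ D) := by
        apply hmain (κ D) (b : ℤ) (by exact_mod_cast hbpos.ne')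
        · rw [Int.cast_natCast, abs_of_nonneg (Nat.cast_nonneg _)]
          have e : (n : ℝ) ^ (12 : ℝ) = (n : ℝ) ^ 12 := by norm_cast
          rw [e]; exact hcon
        · exact hsm
        · intro p hp h2 hpn hpb
          by_cases hpf : (p : ℤ) ∣ κ D
          · exact ⟨0, by simpa using hpf⟩
          · have hpPR : p ∈ PR n := mem_PR.mpr ⟨by omega, hp, by omega⟩
            have hps : ps (κ D) p = 1 := by
              by_contra hne
              apply hpb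
              have : p ∣ b := Finset.dvd_prod_of_mem (fun p => p)
                (mem_filter.mpr ⟨hpPR, hpf, hne⟩)
              exact_mod_cast this
            have : Fact p.Prime := ⟨hp⟩
            unfold ps at hps
            rw [if_pos (hp.odd_of_ne_two (by omega)), ← jacobiSym.legendreSym.to_jacobiSym] at hps
            have h0 : (κ D : ZMod p) ≠ 0 :=
              fun h' => hpf ((ZMod.intCast_zmod_eq_zero_iff_dvd _ p).mp h')
            rw [legendreSym.eq_one_iff p h0] at hps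
            obtain ⟨r, hr⟩ := hps
            refine ⟨(r.val : ℤ), ?_⟩
            rw [← ZMod.intCast_zmod_eq_zero_iff_dvd]
            push_cast
            rw [ZMod.natCast_zmod_val, hr]
            ring
      obtain ⟨t, ht⟩ := hsq
      have hu : IsUnit t := g3 t ⟨1, by rw [ht]; ring⟩
      apply g2
      refine ⟨t * σ D, ?_⟩
      conv_lhs => rw [g5, ht]
      ring
    have hbd : ∀ E ∈ T.filter (fun E => κ E = κ D), (b : ℤ) ∣ σ E := by
      intro E hE
      rw [mem_filter] at hE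
      obtain ⟨⟨k1, k2, k3, k4, k5, k6⟩, -⟩ := hT E hE.1
      rw [hE.2] at k5
      apply Int.natCast_dvd.mpr
      rw [hb]
      apply Finset.prod_primes_dvd
      · intro p hp
        exact (mem_PR.mp (mem_filter.mp hp).1).2.1.prime
      · intro p hp
        rw [inert, mem_filter] at hp
        exact Int.natCast_dvd.mp (dvd_of_bad n (κ D) (σ E) E k5 k6 p hp.1 hp.2.1 hp.2.2)
    have h1 := fibb X (κ D) g3.ne_zero b hbpos (T.filter fun E => κ E = κ D) σ (by
      intro E hE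
      have hE' := mem_filter.mp hE
      obtain ⟨⟨k1, k2, k3, k4, k5, k6⟩, -⟩ := hT E hE'.1
      refine ⟨k1, k4, ?_, hbd E hE⟩
      rw [← hE'.2]; exact k5)
    refine h1.trans ?_
    exact div_le_div_of_nonneg_left (Real.sqrt_nonneg _) (by positivity) hbig.le
  have hcard : ((T.image κ).card : ℝ) ≤ 3 * (n : ℝ) ^ 7 := by
    have hsub : T.image κ ⊆ Icc (-((n ^ 7 : ℕ) : ℤ)) ((n ^ 7 : ℕ) : ℤ) := by
      intro f hf
      obtain ⟨D, hD, rfl⟩ := Finset.mem_image.mp hf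
      have h1 := (hT D hD).2
      have h2 : (n : ℝ) ^ (4 * Real.exp (1 / 2) - ε) ≤ (n : ℝ) ^ 7 := by
        rw [← Real.rpow_natCast]
        apply Real.rpow_le_rpow_of_exponent_le hn1
        have := exp_half_bounds.2
        push_cast
        linarith
      have h3 := abs_le.mp (h1.trans h2)
      rw [Finset.mem_Icc]
      constructor
      · have : ((-((n ^ 7 : ℕ) : ℤ) : ℤ) : ℝ) ≤ (κ D : ℝ) := by push_cast; exact h3.1
        exact_mod_cast this
      · have : (κ D : ℝ) ≤ ((((n ^ 7 : ℕ) : ℤ) : ℤ) : ℝ) := by push_cast; exact h3.2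
        exact_mod_cast this
    have h1 := card_le_card hsub
    rw [Int.card_Icc] at h1
    have h2 : (((n ^ 7 : ℕ) : ℤ) + 1 - -((n ^ 7 : ℕ) : ℤ)).toNat = 2 * n ^ 7 + 1 := by
      generalize n ^ 7 = m
      omega
    rw [h2] at h1
    have h3 : ((T.image κ).card : ℝ) ≤ ((2 * n ^ 7 + 1 : ℕ) : ℝ) := by exact_mod_cast h1
    push_cast at h3
    have h4 : (1 : ℝ) ≤ (n : ℝ) ^ 7 := one_le_pow₀ hn1
    linarith
  rw [hsum]
  calc ∑ f ∈ T.image κ, ((T.filter fun D => κ D = f).card : ℝ)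
      ≤ ∑ _f ∈ T.image κ, √X / (n : ℝ) ^ 12 := sum_le_sum hfib
    _ = ((T.image κ).card : ℝ) * (√X / (n : ℝ) ^ 12) := by rw [sum_const, nsmul_eq_mul]
    _ ≤ (3 * (n : ℝ) ^ 7) * (√X / (n : ℝ) ^ 12) :=
        mul_le_mul_of_nonneg_right hcard (by positivity)
    _ = (3 * √X) / (n : ℝ) ^ 5 := by field_simp
    _ ≤ (n * √X) / (n : ℝ) ^ 5 := by gcongr
    _ = √X / (n : ℝ) ^ 4 := by field_simp

lemma medium (A ε : ℝ) (hA : 0 ≤ A) (hε : 0 < ε) : ∀ᶠ n : ℕ in atTop, ∀ X : ℝ,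
    Real.log X ≤ (n : ℝ) ^ (1 / 3 : ℝ) → ∀ κ σ : ℤ → ℤ, ∀ T : Finset ℤ,
    (∀ D ∈ T, Good n X κ σ D ∧ (n : ℝ) ^ (4 * Real.exp (1 / 2) - ε) ≤ |(κ D : ℝ)| ∧
      |(κ D : ℝ)| ≤ (n : ℝ) ^ A) →
    (T.card : ℝ) ≤ √X / (n : ℝ) ^ (2 * Real.exp (1 / 2) - ε) := by
  classical
  set B : ℕ := ⌈2 * (A + 1)⌉₊ with hB
  have hBA : 2 * (A + 1) ≤ (B : ℝ) := Nat.le_ceil _
  have hB0 : (0 : ℝ) < B := by linarith
  set δ : ℝ := min (ε / (16 * B)) (1 / 8) with hδ
  have hδ0 : 0 < δ := lt_min (by positivity) (by norm_num)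
  have hδ8 : δ ≤ 1 / 8 := min_le_right _ _
  have hδB : (δ + δ) * B ≤ ε / 8 := by
    have : δ ≤ ε / (16 * B) := min_le_left _ _
    rw [le_div_iff₀ (by positivity)] at this
    linarith
  have e1 : ∀ᶠ n : ℕ in atTop, (4 * B : ℝ) ≤ (n : ℝ) ^ δ :=
    tendsto_natCast_atTop_atTop.eventually ((tendsto_rpow_atTop hδ0).eventually_ge_atTop _)
  have e2 : ∀ᶠ n : ℕ in atTop, (8 : ℝ) ≤ (n : ℝ) ^ (1 / 4 : ℝ) :=
    tendsto_natCast_atTop_atTop.eventually
      ((tendsto_rpow_atTop (by norm_num : (0 : ℝ) < 1 / 4)).eventually_ge_atTop _)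
  have e3 : ∀ᶠ n : ℕ in atTop, (4 : ℝ) ≤ (n : ℝ) ^ (3 * ε / 8) :=
    tendsto_natCast_atTop_atTop.eventually
      ((tendsto_rpow_atTop (by positivity : (0 : ℝ) < 3 * ε / 8)).eventually_ge_atTop _)
  have e4 : ∀ᶠ n : ℕ in atTop, Real.log (n : ℝ) ≤ (1 / (64 * (A + 1))) * (n : ℝ) ^ (1 : ℝ) := by
    have h := (isLittleO_log_rpow_atTop (by norm_num : (0 : ℝ) < 1)).bound
      (by positivity : (0 : ℝ) < 1 / (64 * (A + 1)))
    filter_upwards [tendsto_natCast_atTop_atTop.eventually h, eventually_ge_atTop 1] with y hy hy1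
    rw [Real.norm_of_nonneg (Real.log_nonneg (by exact_mod_cast hy1)),
      Real.norm_of_nonneg (by positivity)] at hy
    exact hy
  filter_upwards [card_PR δ hδ0 (by linarith), e1, e2, e3, e4, eventually_ge_atTop 128]
    with n hK h1 h2 h3 h4 hn X hX κ σ T hT
  have hn0 : (0 : ℝ) < n := by positivity
  have hn128 : (128 : ℝ) ≤ n := by exact_mod_cast hn
  have hn1 : (1 : ℝ) ≤ n := by linarith
  rw [Real.rpow_one] at h4
  have hY : 1 ≤ (n : ℝ) ^ A := Real.one_le_rpow hn1 hA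
  have hlogY : Real.log (4 * ((n : ℝ) ^ A) ^ 2) = Real.log 4 + 2 * (A * Real.log n) := by
    rw [Real.log_mul (by norm_num) (by positivity), Real.log_pow, Real.log_rpow hn0]
    push_cast; ring
  have hlog4 : Real.log 4 ≤ 2 := by
    have : Real.log 4 = 2 * Real.log 2 := by
      rw [show (4 : ℝ) = 2 ^ 2 by norm_num, Real.log_pow]; push_cast; ring
    rw [this]
    linarith [Real.log_two_lt_d9]
  have hAl : A * Real.log n ≤ n / 64 := by
    have h5 : A * Real.log n ≤ A * (1 / (64 * (A + 1)) * n) := mul_le_mul_of_nonneg_left h4 hA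
    have h6 : A * (1 / (64 * (A + 1)) * n) = (A / (A + 1)) * (n / 64) := by
      field_simp
    have h7 : A / (A + 1) ≤ 1 := by rw [div_le_one (by positivity)]; linarith
    have h8 : (A / (A + 1)) * (n / 64) ≤ 1 * ((n : ℝ) / 64) :=
      mul_le_mul_of_nonneg_right h7 (by positivity)
    linarith
  have hYB : 16 * ((n : ℝ) ^ A) * (1 + Real.log (4 * ((n : ℝ) ^ A) ^ 2)) ≤
      (n : ℝ) ^ ((1 - δ - δ) * B) := by
    have h5 : (n : ℝ) ^ (A + 1) ≤ (n : ℝ) ^ ((1 - δ - δ) * B) := by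
      apply Real.rpow_le_rpow_of_exponent_le hn1
      nlinarith
    refine le_trans ?_ h5
    rw [Real.rpow_add hn0, Real.rpow_one, hlogY]
    have h6 : 16 * (1 + (Real.log 4 + 2 * (A * Real.log n))) ≤ n := by linarith
    have h7 : 0 ≤ (n : ℝ) ^ A := by positivity
    nlinarith
  have hXK : 8 * Real.log X ≤ ((PR n).card : ℝ) := by
    have h5 : (n : ℝ) ^ (1 / 4 + 1 / 3 : ℝ) ≤ (n : ℝ) ^ (1 - δ) := by
      apply Real.rpow_le_rpow_of_exponent_le hn1
      linarith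
    rw [Real.rpow_add hn0] at h5
    have h6 : 0 ≤ (n : ℝ) ^ (1 / 3 : ℝ) := by positivity
    nlinarith
  have hcl := few_classes B n δ δ X ((n : ℝ) ^ A) (by omega) hY hK hXK h1 hYB κ σ T
    (fun D hD => (hT D hD).1) (fun D hD => (hT D hD).2.2)
  have hcl2 : ((T.image κ).card : ℝ) ≤ (n : ℝ) ^ (ε / 2) := by
    refine hcl.trans ?_
    calc 4 * (n : ℝ) ^ ((δ + δ) * B) ≤ (n : ℝ) ^ (3 * ε / 8) * (n : ℝ) ^ (ε / 8) := by
          apply mul_le_mul h3 _ (by positivity) (by positivity)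
          exact Real.rpow_le_rpow_of_exponent_le hn1 hδB
      _ = (n : ℝ) ^ (ε / 2) := by rw [← Real.rpow_add hn0]; congr 1; ring
  have ht := tot X ((n : ℝ) ^ (4 * Real.exp (1 / 2) - ε)) _ (by positivity) T κ σ (by
    intro D hD
    obtain ⟨⟨g1, g2, g3, g4, g5, g6⟩, hsm, -⟩ := hT D hD
    exact ⟨g1, g4, g5, g3.ne_zero, hsm⟩) hcl2
  refine ht.trans (le_of_eq ?_)
  have e : √((n : ℝ) ^ (4 * Real.exp (1 / 2) - ε)) =
      (n : ℝ) ^ (ε / 2) * (n : ℝ) ^ (2 * Real.exp (1 / 2) - ε) := by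
    rw [Real.sqrt_eq_rpow, ← Real.rpow_mul hn0.le, ← Real.rpow_add hn0]; congr 1; ring
  rw [e]
  have : (n : ℝ) ^ (ε / 2) ≠ 0 := (Real.rpow_pos_of_pos hn0 _).ne'
  have h' : (n : ℝ) ^ (2 * Real.exp (1 / 2) - ε) ≠ 0 := (Real.rpow_pos_of_pos hn0 _).ne'
  field_simp

end Pool.Agent.T3h91.EC
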